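import Pool.Agent.H648R3.WC.NPMem
import Pool.Agent.H648R3.WC.Red

/-!
# 2-weight colourability is NP-complete

Membership in NP: for a set `{a, b}` of weights only the ratio `a / (b - a)` matters, and only
polynomially many ratios are critical; a certificate consists of one weighting for each of them.

Hardness: on cubic graphs all two-element sets of weights are equivalent (adjacent vertices must
have different numbers of edges of weight `b`). The reduction is from monotone not-all-equal
satisfiability. A diamond (`K₄` minus an edge) has the same weight on its two outgoing edges, and a
vertex adjacent to two diamonds has three edges of the same weight; so cycles of such vertices and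
diamonds represent variables, and a clause is a single vertex joined to three of them.
-/

namespace Pool.Agent.Results.MP_9101e1_lc.TwoWeightNPComplete

open Pool.Agent.NPC Pool.Agent.NPC.R671 Pool.Agent.H648R3.WC

/-- **2-WC is NP-complete**: it is in `NP`, it is `NP`-hard, and it stays `NP`-hard on cubic
graphs. -/
theorem result :
    InNPP TwoWC ∧ NPHardP TwoWC ∧
    ∀ L : Set (List Bool), InNP L → ∃ f : List Bool → List Bool, PolyTime f ∧
      ∀ w, ∃ (n : ℕ) (G : SimpleGraph (Fin n)), f w = bits (adjMatrix G) ∧ Cubic G ∧
        (w ∈ L ↔ KWeightColourable G 2) :=
  ⟨WC648.twoWC_inNPP, WC648.npHard, WC648.hard⟩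

end Pool.Agent.Results.MP_9101e1_lc.TwoWeightNPComplete
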